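import Mathlib

set_option autoImplicit false

open Polynomial Matrix

namespace Pool.Agent.Results.MP_92b5af_al.Ex

/-- integer-valued polynomials -/
def R : Subring ℚ[X] where
  carrier := {P | ∀ n : ℤ, ∃ z : ℤ, P.eval (n : ℚ) = z}
  mul_mem' := fun {a b} ha hb n => by
    obtain ⟨x, hx⟩ := ha n; obtain ⟨y, hy⟩ := hb n
    exact ⟨x * y, by simp [hx, hy]⟩
  one_mem' := fun _ => ⟨1, by simp⟩
  add_mem' := fun {a b} ha hb n => by
    obtain ⟨x, hx⟩ := ha n; obtain ⟨y, hy⟩ := hb n
    exact ⟨x + y, by simp [hx, hy]⟩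
  zero_mem' := fun _ => ⟨0, by simp⟩
  neg_mem' := fun {a} ha n => by
    obtain ⟨x, hx⟩ := ha n
    exact ⟨-x, by simp [hx]⟩

lemma ev_spec (n : ℤ) (P : R) : (((P.1.eval (n : ℚ)).num : ℤ) : ℚ) = P.1.eval (n : ℚ) := by
  obtain ⟨z, hz⟩ := P.2 n
  rw [hz, Rat.num_intCast]

/-- evaluation at an integer -/
noncomputable def ev (n : ℤ) : R →+* ℤ where
  toFun P := (P.1.eval (n : ℚ)).num
  map_one' := by simp
  map_zero' := by simp
  map_mul' a b := Int.cast_injective (α := ℚ) (by rw [Int.cast_mul, ev_spec, ev_spec, ev_spec]; simp)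
  map_add' a b := Int.cast_injective (α := ℚ) (by rw [Int.cast_add, ev_spec, ev_spec, ev_spec]; simp)

lemma ev_cast (n : ℤ) (P : R) : ((ev n P : ℤ) : ℚ) = P.1.eval (n : ℚ) := ev_spec n P

lemma split_prime (p : ℕ) (hp : p.Prime) (a : R) (ha : ev 0 a = 0) :
    ∃ b : R, ev 0 b = 0 ∧ a = p * b + a * a ^ (p - 1) := by
  have := Fact.mk hp
  have hp0 : (p : ℚ) ≠ 0 := by exact_mod_cast hp.ne_zero
  have hpow : a * a ^ (p - 1) = a ^ p := by
    rw [← pow_succ', Nat.sub_add_cancel hp.one_le]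
  let b : R := ⟨C (p : ℚ)⁻¹ * (a.1 - a.1 ^ p), fun n => by
    have h1 : (p : ℤ) ∣ ev n a - ev n a ^ p := by
      rw [← ZMod.intCast_zmod_eq_zero_iff_dvd]
      push_cast
      rw [ZMod.pow_card, sub_self]
    obtain ⟨z, hz⟩ := h1
    refine ⟨z, ?_⟩
    have h2 := congrArg (Int.cast : ℤ → ℚ) hz
    push_cast at h2
    rw [ev_cast] at h2
    simp only [eval_mul, eval_C, eval_sub, eval_pow, h2]
    field_simp⟩
  have hb : a = p * b + a ^ p := by
    apply Subtype.ext
    show a.1 = ((p : R) : ℚ[X]) * (C (p : ℚ)⁻¹ * (a.1 - a.1 ^ p)) + a.1 ^ p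
    have : ((p : R) : ℚ[X]) = C (p : ℚ) := by simp
    rw [this, ← mul_assoc, ← C_mul, mul_inv_cancel₀ hp0]; simp
  refine ⟨b, ?_, by rw [hpow]; exact hb⟩
  have h3 := congrArg (ev 0) hb
  simp only [map_add, map_mul, map_pow, map_natCast, ha, zero_pow hp.ne_zero, add_zero] at h3
  exact (mul_eq_zero.mp h3.symm).resolve_left (by exact_mod_cast hp.ne_zero)

/-- elementary matrices -/
noncomputable def e {i j : Fin 3} (h : i ≠ j) (a : R) : SpecialLinearGroup (Fin 3) R :=
  ⟨transvection i j a, det_transvection_of_ne i j h a⟩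

lemma e_add {i j : Fin 3} (h : i ≠ j) (a b : R) : e h (a + b) = e h a * e h b :=
  Subtype.ext (transvection_mul_transvection_same i j h a b).symm

lemma e_comm {i j k : Fin 3} (hij : i ≠ j) (hjk : j ≠ k) (hik : i ≠ k) (a b : R) :
    e hij a * e hjk b = e hik (a * b) * (e hjk b * e hij a) := by
  apply Subtype.ext
  show transvection i j a * transvection j k b
    = transvection i k (a * b) * (transvection j k b * transvection i j a)
  simp only [transvection, mul_add, add_mul, mul_one, one_mul, single_mul_single_same,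
    single_mul_single_of_ne _ _ _ _ hik.symm, single_mul_single_of_ne _ _ _ _ hjk.symm, add_zero]
  abel

/-- the group generated by the elementary matrices with entries vanishing at `0` -/
noncomputable def L : Subgroup (SpecialLinearGroup (Fin 3) R) :=
  Subgroup.closure {g | ∃ (i j : Fin 3) (h : i ≠ j) (a : R), ev 0 a = 0 ∧ g = e h a}

/-- generators as elements of `L` -/
noncomputable def el {i j : Fin 3} (h : i ≠ j) (a : R) (ha : ev 0 a = 0) : L :=
  ⟨e h a, Subgroup.subset_closure ⟨i, j, h, a, ha, rfl⟩⟩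

lemma kill {A : Type} [CommGroup A] (f : L →* A) (m : ℕ) (hm : m ≠ 0) {i j : Fin 3} (h : i ≠ j)
    (a : R) (ha : ev 0 a = 0) : ∃ b : R, ∃ hb : ev 0 b = 0, f (el h a ha) = f (el h b hb) ^ m := by
  induction m using induction_on_primes generalizing a with
  | zero => exact absurd rfl hm
  | one => exact ⟨a, ha, (pow_one _).symm⟩
  | prime_mul p m hp ih =>
    obtain ⟨b, hb, hab⟩ := split_prime p hp a ha
    obtain ⟨c, hc, hbc⟩ := ih (right_ne_zero_of_mul hm) b hb
    refine ⟨c, hc, ?_⟩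
    have h1 : ∀ n : ℕ, ∃ hn : ev 0 (n * b) = 0, el h (n * b) hn = el h b hb ^ n := by
      intro n
      refine ⟨by simp [hb], Subtype.ext ?_⟩
      show e h (n * b) = e h b ^ n
      induction n with
      | zero => apply Subtype.ext; simp [e]
      | succ n ih => rw [pow_succ, ← ih, ← e_add]; congr 1; push_cast; ring
    obtain ⟨hn, h1⟩ := h1 p
    obtain ⟨k, hik, hkj⟩ := (by decide : ∀ i j : Fin 3, ∃ k : Fin 3, i ≠ k ∧ k ≠ j) i j
    have ha' : ev 0 (a ^ (p - 1)) = 0 := by
      rw [map_pow, ha, zero_pow]; have := hp.two_le; omega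
    have ha'' : ev 0 (a * a ^ (p - 1)) = 0 := by rw [map_mul, ha, zero_mul]
    have h2 : f (el h (a * a ^ (p - 1)) ha'') = 1 := by
      have h3 : el hik a ha * el hkj _ ha' = el h _ ha'' * (el hkj _ ha' * el hik a ha) :=
        Subtype.ext (e_comm hik hkj h _ _)
      have h4 := congrArg f h3
      rw [map_mul, map_mul, map_mul, mul_comm (f (el hkj _ ha'))] at h4
      exact (right_eq_mul.mp h4)
    have h5 : el h a ha = el h (p * b) hn * el h _ ha'' := by
      apply Subtype.ext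
      show e h a = e h (p * b) * e h (a * a ^ (p - 1))
      rw [← e_add, ← hab]
    rw [h5, map_mul, h2, mul_one, h1, map_pow, hbc, ← pow_mul, mul_comm]

lemma kill' {A : Type} [CommGroup A] [Finite A] (f : L →* A) (x : L) : f x = 1 := by
  have : L ≤ f.ker.map L.subtype := by
    refine (Subgroup.closure_le _).mpr ?_
    rintro _ ⟨i, j, h, a, ha, rfl⟩
    obtain ⟨b, hb, h1⟩ := kill f (Nat.card A) Nat.card_pos.ne' h a ha
    exact ⟨el h a ha, h1.trans pow_card_eq_one', rfl⟩
  obtain ⟨y, hy, h⟩ := this x.2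
  rw [← show y = x from Subtype.ext h]
  exact hy

lemma triv (N : Subgroup L) [N.Normal] [Finite (L ⧸ N)] [Group.IsSolvable (L ⧸ N)] (g : L) :
    g ∈ N := by
  by_contra hg
  have hnt : Nontrivial (L ⧸ N) :=
    ⟨⟨g, 1, fun h => hg ((QuotientGroup.eq_one_iff g).mp h)⟩⟩
  let f : L →* Abelianization (L ⧸ N) := Abelianization.of.comp (QuotientGroup.mk' N)
  have hf : ∀ x : L, f x = 1 := kill' f
  refine (Group.IsSolvable.commutator_lt_top_of_nontrivial (L ⧸ N)).ne (eq_top_iff.mpr fun y _ => ?_)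
  obtain ⟨x, rfl⟩ := QuotientGroup.mk'_surjective N y
  rw [← Abelianization.ker_of]
  exact hf x

/-- reduction modulo `X ^ k` -/
noncomputable def φ (k : ℕ) : R →+* ℚ[X] ⧸ Ideal.span {(X : ℚ[X]) ^ k} :=
  (Ideal.Quotient.mk _).comp R.subtype

lemma φ_zero (k : ℕ) (a : R) : φ k a = 0 ↔ X ^ k ∣ a.1 :=
  Ideal.Quotient.eq_zero_iff_mem.trans Ideal.mem_span_singleton

lemma ker_iff {S : Type} [CommRing S] (ψ : R →+* S) (g : SpecialLinearGroup (Fin 3) R) :
    SpecialLinearGroup.map ψ g = 1 ↔ ∀ i j, ψ ((g.1 - 1) i j) = 0 := by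
  refine (Matrix.SpecialLinearGroup.ext_iff _ _).trans (forall_congr' fun i => forall_congr' fun j => ?_)
  have : ψ ((1 : Matrix (Fin 3) (Fin 3) R) i j) = (1 : Matrix (Fin 3) (Fin 3) S) i j := by
    by_cases h : i = j <;> simp [one_apply, h]
  rw [Matrix.sub_apply, map_sub, this, sub_eq_zero]
  rfl

lemma der (k : ℕ) : derivedSeries L k ≤ ((SpecialLinearGroup.map (φ (k + 1))).comp L.subtype).ker := by
  induction k with
  | zero =>
    rintro ⟨x, hx⟩ -
    have : L ≤ (SpecialLinearGroup.map (φ 1)).ker := by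
      rw [L, Subgroup.closure_le]
      rintro _ ⟨i, j, h, a, ha, rfl⟩
      refine (ker_iff _ _).mpr fun i' j' => ?_
      have h1 : φ 1 a = 0 := by
        rw [φ_zero, pow_one, X_dvd_iff, coeff_zero_eq_eval_zero]
        have := ev_cast 0 a
        rw [ha] at this
        simpa using this.symm
      simp only [e, transvection, add_sub_cancel_left, single_apply]
      split_ifs
      · exact h1
      · exact map_zero _
    exact this hx
  | succ k ih =>
    rw [derivedSeries_succ, Subgroup.commutator_le]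
    intro g hg h hh
    have hg' := (ker_iff _ _).mp (ih hg)
    have hh' := (ker_iff _ _).mp (ih hh)
    rw [MonoidHom.mem_ker, map_commutatorElement, commutatorElement_eq_one_iff_mul_comm]
    have key : ∀ A B : Matrix (Fin 3) (Fin 3) R, (∀ i j, φ (k + 1) (A i j) = 0) →
        (∀ i j, φ (k + 1) (B i j) = 0) → (φ (k + 1 + 1)).mapMatrix (A * B) = 0 := by
      intro A B hA hB
      ext i j
      simp only [RingHom.mapMatrix_apply, map_apply, mul_apply, map_sum, Matrix.zero_apply]
      refine Finset.sum_eq_zero fun l _ => (φ_zero _ _).mpr ?_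
      refine dvd_trans (pow_dvd_pow X (by omega : k + 1 + 1 ≤ (k + 1) + (k + 1))) ?_
      rw [pow_add]
      exact mul_dvd_mul ((φ_zero _ _).mp (hA i l)) ((φ_zero _ _).mp (hB l j))
    apply Subtype.ext
    show (φ (k + 1 + 1)).mapMatrix g.1.1 * (φ (k + 1 + 1)).mapMatrix h.1.1
      = (φ (k + 1 + 1)).mapMatrix h.1.1 * (φ (k + 1 + 1)).mapMatrix g.1.1
    have k1 := key _ _ hg' hh'
    have k2 := key _ _ hh' hg'
    simp only [map_mul, map_sub, map_one, Subgroup.coe_subtype] at k1 k2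
    have gen : ∀ {T : Type} [Ring T] (A B : T), (A - 1) * (B - 1) = 0 → (B - 1) * (A - 1) = 0 →
        A * B = B * A := by
      intro T _ A B h1 h2
      have e1 : A * B = (A - 1) * (B - 1) + (A + B - 1) := by
        rw [sub_mul, mul_sub, mul_sub, mul_one, one_mul, one_mul]; abel
      have e2 : B * A = (B - 1) * (A - 1) + (A + B - 1) := by
        rw [sub_mul, mul_sub, mul_sub, mul_one, one_mul, one_mul]; abel
      rw [e1, e2, h1, h2]
    exact gen _ _ k1 k2

lemma entry (g : L) (hg : g ≠ 1) : ∃ i j, ((g.1.1 - 1) i j).1 ≠ 0 := by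
  by_contra h
  push Not at h
  apply hg
  apply Subtype.ext; apply Subtype.ext
  rw [← sub_eq_zero]
  ext1 i j
  exact Subtype.ext (h i j)

/-- A residually finite and residually soluble group that is not residually finite-soluble. -/
theorem result : ∃ (Γ : Type) (_ : Group Γ),
    (∀ g : Γ, g ≠ 1 → ∃ (N : Subgroup Γ) (_ : N.Normal), g ∉ N ∧ Finite (Γ ⧸ N)) ∧
    (∀ g : Γ, g ≠ 1 → ∃ (N : Subgroup Γ) (_ : N.Normal), g ∉ N ∧ Group.IsSolvable (Γ ⧸ N)) ∧
    ¬ (∀ g : Γ, g ≠ 1 → ∃ (N : Subgroup Γ) (_ : N.Normal),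
      g ∉ N ∧ Finite (Γ ⧸ N) ∧ Group.IsSolvable (Γ ⧸ N)) := by
  refine ⟨L, inferInstance, fun g hg => ?_, fun g hg => ?_, fun H => ?_⟩
  · obtain ⟨i, j, h⟩ := entry g hg
    obtain ⟨n, hn⟩ : ∃ n : ℤ, ev n ((g.1.1 - 1) i j) ≠ 0 := by
      by_contra h'
      push Not at h'
      refine h (eq_zero_of_infinite_isRoot _ ((Set.infinite_range_of_injective
        (Int.cast_injective (α := ℚ))).mono ?_))
      rintro _ ⟨n, rfl⟩
      have := ev_cast n ((g.1.1 - 1) i j)
      rw [h' n] at this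
      simpa using this.symm
    let m := (ev n ((g.1.1 - 1) i j)).natAbs + 1
    let f := (SpecialLinearGroup.map (n := Fin 3) ((Int.castRingHom (ZMod m)).comp (ev n))).comp L.subtype
    refine ⟨f.ker, inferInstance, fun hk => ?_,
      Finite.of_injective _ (QuotientGroup.kerLift_injective f)⟩
    have h1 := (ker_iff _ _).mp hk i j
    have h2 : (m : ℤ) ∣ ev n ((g.1.1 - 1) i j) := (ZMod.intCast_zmod_eq_zero_iff_dvd _ _).mp h1
    have h3 := Nat.le_of_dvd (Int.natAbs_pos.mpr hn) (Int.natCast_dvd.mp h2)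
    omega
  · obtain ⟨i, j, h⟩ := entry g hg
    let k := ((g.1.1 - 1) i j).1.natDegree
    refine ⟨derivedSeries L k, derivedSeries_normal _ _, fun hk => ?_, ⟨k, ?_⟩⟩
    · have h1 := (φ_zero _ _).mp ((ker_iff _ _).mp (der k hk) i j)
      have h2 : (X ^ (k + 1) : ℚ[X]).natDegree ≤ k := natDegree_le_of_dvd h1 h
      rw [natDegree_X_pow] at h2
      omega
    · have := derivedSeries_normal L k
      rw [← map_derivedSeries_eq (QuotientGroup.mk'_surjective (derivedSeries L k)),
        Subgroup.map_eq_bot_iff, QuotientGroup.ker_mk']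
  · let x : R := ⟨X, fun n => ⟨n, by simp⟩⟩
    have hx : ev 0 x = 0 := by simp [ev, x]
    obtain ⟨N, _, h1, _, _⟩ := H (el (show (0 : Fin 3) ≠ 1 by decide) x hx) (by
      intro h
      have h2 := congrArg (fun g : L => (g.1.1 0 1).1) h
      simp [el, e, transvection, x] at h2)
    exact h1 (triv N _)

end Pool.Agent.Results.MP_92b5af_al.Ex
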